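import Pool.Agent.V1127.Cm.Phase
import Pool.Agent.V1127.Cm.TorusS

/-!
# MP_6db3ee_gt, Q1: cone monotone maps to `S¹ × S³` and to the twisted product

Q1 asks whether every smooth 4-manifold homeomorphic to `S¹ × S³`, or to the twisted product, is
diffeomorphic to it. The theorem: a closed connected smooth 4-manifold `M` with a cone monotone map
`M → S¹ × S³` is diffeomorphic to `S¹ × S³`; with a cone monotone map to the twisted product it is
diffeomorphic to the twisted product or to `S¹ × S³`. The map may have any degree and is not assumed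
to be injective, a homotopy equivalence, Lipschitz or differentiable anywhere.

`S¹ × S³` and the twisted product are described as mapping tori: as quotients of `ℝ × S³` by
`(t, x) ↦ (t + 1, x)` and `(t, x) ↦ (t + 1, r x)`, with `r` the reflection in the first coordinate.

`f` is cone monotone at `x` if in some smooth coordinates around `x` and `f x`, for every direction
`v`, the increments of `f` in the directions near `v` lie in a proper convex cone, on all scales.

The method: mollification in boxes, with all cones preserved, gives a local diffeomorphism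
homotopic to `f`, hence a smooth finite covering; a lift of the universal covering `ℝ × S³` through
it presents `M` as a mapping torus of the same kind.
-/

set_option autoImplicit false

open Set Filter Topology Metric Function
open scoped Manifold ContDiff

noncomputable section

namespace Pool.Agent.Results.MP_6db3ee_gt.ConeMonotoneMaps

/-- the unit sphere of `ℝ⁴` -/
abbrev S3 : Type := sphere (0 : EuclideanSpace ℝ (Fin 4)) 1

/-- the reflection `(x₁, x₂, x₃, x₄) ↦ (-x₁, x₂, x₃, x₄)` of the 3-sphere -/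
def refl3 (x : S3) : S3 :=
  ⟨(ℝ ∙ (EuclideanSpace.single (0 : Fin 4) (1 : ℝ)))ᗮ.reflection x, by
    rw [mem_sphere_zero_iff_norm, LinearIsometryEquiv.norm_map]
    exact mem_sphere_zero_iff_norm.1 x.2⟩

/-- `N` is, as a smooth manifold, the mapping torus of the involution `ρ` of the 3-sphere: there is
a local diffeomorphism `e` of `ℝ × S³` onto `N` whose fibres are the orbits of
`(t, x) ↦ (t + 1, ρ x)`. -/
def IsMappingTorus (ρ : S3 → S3) (N : Type) [TopologicalSpace N]
    [ChartedSpace (EuclideanSpace ℝ (Fin 4)) N] : Prop :=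
  ∃ e : ℝ × S3 → N, IsLocalDiffeomorph ((𝓘(ℝ, ℝ)).prod (𝓡 3)) (𝓡 4) ∞ e ∧ Surjective e ∧
    ∀ z w, e z = e w ↔ ∃ k : ℤ, w = (z.1 + k, if Even k then z.2 else ρ z.2)

/-- `f` is a local diffeomorphism at `x` -/
def LocDiff {M N : Type} [TopologicalSpace M]
    [ChartedSpace (EuclideanSpace ℝ (Fin 4)) M] [TopologicalSpace N]
    [ChartedSpace (EuclideanSpace ℝ (Fin 4)) N] (f : M → N) (x : M) : Prop :=
  IsLocalDiffeomorphAt (𝓡 4) (𝓡 4) ∞ f x

/-- `f : M → N` is cone monotone at `x`: for a smooth parametrization `A` around `x` and smooth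
coordinates `B` around `f x`, for every direction `v` the increments of `B ∘ f ∘ A` in the
directions near `v` lie in a cone `r ‖z‖ < ℓ z`. -/
def ConeMonotone {M N : Type} [TopologicalSpace M]
    [ChartedSpace (EuclideanSpace ℝ (Fin 4)) M] [TopologicalSpace N]
    [ChartedSpace (EuclideanSpace ℝ (Fin 4)) N] (f : M → N) (x : M) : Prop :=
  ∃ (A : EuclideanSpace ℝ (Fin 4) → M) (B : N → EuclideanSpace ℝ (Fin 4)),
    A 0 = x ∧ LocDiff A 0 ∧ LocDiff B (f x) ∧
    ∀ v : EuclideanSpace ℝ (Fin 4), v ≠ 0 →
      ∃ (r : ℝ) (ℓ : EuclideanSpace ℝ (Fin 4) →L[ℝ] ℝ), 0 < r ∧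
        ∀ p q : EuclideanSpace ℝ (Fin 4), ‖p‖ ≤ r → ‖q‖ ≤ r → ∀ t : ℝ, 0 < t →
          ‖q - p - t • v‖ ≤ r * t →
            r * ‖B (f (A q)) - B (f (A p))‖ < ℓ (B (f (A q)) - B (f (A p)))

/-- there is a continuous map `M → N` which is everywhere a local diffeomorphism or cone
monotone -/
def HasConeMonotoneMap (M N : Type) [TopologicalSpace M]
    [ChartedSpace (EuclideanSpace ℝ (Fin 4)) M] [TopologicalSpace N]
    [ChartedSpace (EuclideanSpace ℝ (Fin 4)) N] : Prop :=
  ∃ f : C(M, N), ∀ x, LocDiff f x ∨ ConeMonotone f x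

/-- `M` and `N` are diffeomorphic -/
def Diffeomorphic (M N : Type) [TopologicalSpace M]
    [ChartedSpace (EuclideanSpace ℝ (Fin 4)) M] [TopologicalSpace N]
    [ChartedSpace (EuclideanSpace ℝ (Fin 4)) N] : Prop :=
  Nonempty (Diffeomorph (𝓡 4) (𝓡 4) M N ∞)

theorem refl3_refl3 (x : S3) : refl3 (refl3 x) = x :=
  Subtype.ext (Submodule.reflection_reflection _ _)

theorem refl3_cont : Continuous refl3 := by
  unfold refl3
  refine Continuous.subtype_mk ?_ _
  exact (LinearIsometryEquiv.continuous _).comp continuous_subtype_val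

theorem smoothing {M N : Type} [TopologicalSpace M] [T2Space M] [CompactSpace M]
    [ChartedSpace (EuclideanSpace ℝ (Fin 4)) M] [IsManifold (𝓡 4) ∞ M]
    [TopologicalSpace N] [T2Space N] [ChartedSpace (EuclideanSpace ℝ (Fin 4)) N]
    [IsManifold (𝓡 4) ∞ N] (h : HasConeMonotoneMap M N) :
    ∃ p : C(M, N), IsLocalDiffeomorph (𝓡 4) (𝓡 4) ∞ p := by
  obtain ⟨f, hf⟩ := h
  obtain ⟨f', -, h2⟩ := Pool.Agent.V1127.Cm.stCAll 4 M N f univ (fun x => by
    rcases hf x with h | ⟨A, B, hA, hA', hB, h⟩
    · exact Or.inl h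
    · exact Or.inr ⟨B, hB, A, hA, hA', h⟩) isOpen_univ (fun x => mem_univ _)
  exact ⟨f', h2⟩

/-- Let `N` be `S¹ × S³` and `N'` the twisted product. A closed connected smooth 4-manifold `M`
with a cone monotone map to `N` is diffeomorphic to `N`, and with a cone monotone map to `N'` it is
diffeomorphic to `N` or `N'`. -/
theorem result (N N' M : Type)
    [TopologicalSpace N] [T2Space N] [ChartedSpace (EuclideanSpace ℝ (Fin 4)) N]
    [IsManifold (𝓡 4) ∞ N] (hN : IsMappingTorus id N)
    [TopologicalSpace N'] [T2Space N'] [ChartedSpace (EuclideanSpace ℝ (Fin 4)) N']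
    [IsManifold (𝓡 4) ∞ N'] (hN' : IsMappingTorus refl3 N')
    [TopologicalSpace M] [T2Space M] [CompactSpace M] [ConnectedSpace M]
    [ChartedSpace (EuclideanSpace ℝ (Fin 4)) M] [IsManifold (𝓡 4) ∞ M] :
    (HasConeMonotoneMap M N → Diffeomorphic M N) ∧
      (HasConeMonotoneMap M N' → Diffeomorphic M N ∨ Diffeomorphic M N') := by
  constructor
  · intro h
    obtain ⟨p, hp⟩ := smoothing h
    rcases Pool.Agent.V1127.Cm.torus_cover id (fun _ => rfl) continuous_id hN p hp with h1 | h1
    · exact Pool.Agent.V1127.Cm.torus_unique h1 hN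
    · exact Pool.Agent.V1127.Cm.torus_unique h1 hN
  · intro h
    obtain ⟨p, hp⟩ := smoothing h
    rcases Pool.Agent.V1127.Cm.torus_cover refl3 refl3_refl3 refl3_cont hN' p hp with h1 | h1
    · exact Or.inl (Pool.Agent.V1127.Cm.torus_unique h1 hN)
    · exact Or.inr (Pool.Agent.V1127.Cm.torus_unique h1 hN')

end Pool.Agent.Results.MP_6db3ee_gt.ConeMonotoneMaps
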