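import Pool.Agent.V1127.Iso.LocM
import Pool.Agent.V1127.Cm.TorusS

/-!
# MP_6db3ee_gt, Q1: local homeomorphisms to `S¹ × S³` and to the twisted product which near each
# point are smooth of corank at most one, or have such a local inverse

Q1 asks whether every smooth 4-manifold homeomorphic to `S¹ × S³`, or to the twisted product, is
diffeomorphic to it. The theorem: let `M` be a closed connected smooth 4-manifold with a local
homeomorphism `f` (a homeomorphism, or a covering of any degree) to `S¹ × S³` such that near each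
point `f` is smooth with derivatives of rank at least 3, or `f` has a local inverse which is smooth
with derivatives of rank at least 3. Then `M` is diffeomorphic to `S¹ × S³`. With such a map to the
twisted product, `M` is diffeomorphic to the twisted product or to `S¹ × S³`. Neither `f` nor its
local inverses need be differentiable: in one direction `f` may look like `t ↦ t³` at some points
and like `t ↦ t^(1/3)` at others.

`S¹ × S³` and the twisted product are described as mapping tori: as quotients of `ℝ × S³` by
`(t, x) ↦ (t + 1, x)` and `(t, x) ↦ (t + 1, r x)`, with `r` the reflection in the first coordinate.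

The method: pull the smooth structure of the target back to `M` by `f`; the identity of `M`, as a
homeomorphism to the new smooth manifold, is deformed to a diffeomorphism (first removing the points
where it is singular and smooth, then those where its inverse is); composed with `f` it is a smooth
finite covering, and these are classified.
-/

set_option autoImplicit false

open Set Filter Topology Metric Function
open scoped Manifold ContDiff

noncomputable section

namespace Pool.Agent.Results.MP_6db3ee_gt.CorankOneCoverings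

/-- the unit sphere of `ℝ⁴` -/
abbrev S3 : Type := sphere (0 : EuclideanSpace ℝ (Fin 4)) 1

/-- the reflection `(x₁, x₂, x₃, x₄) ↦ (-x₁, x₂, x₃, x₄)` of the 3-sphere -/
def refl3 (x : S3) : S3 :=
  ⟨(ℝ ∙ (EuclideanSpace.single (0 : Fin 4) (1 : ℝ)))ᗮ.reflection x, by
    rw [mem_sphere_zero_iff_norm, LinearIsometryEquiv.norm_map]
    exact mem_sphere_zero_iff_norm.1 x.2⟩

/-- `N` is, as a smooth manifold, the mapping torus of the involution `ρ` of the 3-sphere: there is
a local diffeomorphism `e` of `ℝ × S³` onto `N` whose fibres are the orbits of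
`(t, x) ↦ (t + 1, ρ x)`. -/
def IsMappingTorus (ρ : S3 → S3) (N : Type) [TopologicalSpace N]
    [ChartedSpace (EuclideanSpace ℝ (Fin 4)) N] : Prop :=
  ∃ e : ℝ × S3 → N, IsLocalDiffeomorph ((𝓘(ℝ, ℝ)).prod (𝓡 3)) (𝓡 4) ∞ e ∧ Surjective e ∧
    ∀ z w, e z = e w ↔ ∃ k : ℤ, w = (z.1 + k, if Even k then z.2 else ρ z.2)

/-- the linear map `L` has rank at least 3: composed with some linear map it is onto `ℝ³` -/
def RankAtLeastThree (L : EuclideanSpace ℝ (Fin 4) →L[ℝ] EuclideanSpace ℝ (Fin 4)) : Prop :=
  ∃ P : EuclideanSpace ℝ (Fin 4) →L[ℝ] EuclideanSpace ℝ (Fin 3), Surjective (fun v => P (L v))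

section defs

variable {M N : Type} [TopologicalSpace M] [ChartedSpace (EuclideanSpace ℝ (Fin 4)) M]
  [TopologicalSpace N] [ChartedSpace (EuclideanSpace ℝ (Fin 4)) N]

/-- `f` is smooth at `y`, with derivative of rank at least 3 -/
def RankThree (f : M → N) (y : M) : Prop :=
  ContMDiffAt (𝓡 4) (𝓡 4) ∞ f y ∧ RankAtLeastThree (mfderiv (𝓡 4) (𝓡 4) f y)

/-- `f` is smooth of rank at least 3 at all points near `x` -/
def Forward (f : M → N) (x : M) : Prop := ∀ᶠ y in 𝓝 x, RankThree f y

/-- `f` has a local inverse `k` at `x` which is smooth of rank at least 3 at all points near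
`f x` -/
def Backward (f : M → N) (x : M) : Prop :=
  ∃ k : N → M, (∀ᶠ y in 𝓝 x, k (f y) = y) ∧ ∀ᶠ z in 𝓝 (f x), RankThree k z

end defs

/-- there is a local homeomorphism `M → N` which near each point is smooth of rank at least 3 or
has a local inverse which is smooth of rank at least 3 -/
def HasCorankOneMap (M N : Type) [TopologicalSpace M]
    [ChartedSpace (EuclideanSpace ℝ (Fin 4)) M] [TopologicalSpace N]
    [ChartedSpace (EuclideanSpace ℝ (Fin 4)) N] : Prop :=
  ∃ f : M → N, IsLocalHomeomorph f ∧ ∀ x, Forward f x ∨ Backward f x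

/-- `M` and `N` are diffeomorphic -/
def Diffeomorphic (M N : Type) [TopologicalSpace M]
    [ChartedSpace (EuclideanSpace ℝ (Fin 4)) M] [TopologicalSpace N]
    [ChartedSpace (EuclideanSpace ℝ (Fin 4)) N] : Prop :=
  Nonempty (Diffeomorph (𝓡 4) (𝓡 4) M N ∞)

theorem refl3_refl3 (x : S3) : refl3 (refl3 x) = x :=
  Subtype.ext (Submodule.reflection_reflection _ _)

theorem refl3_cont : Continuous refl3 := by
  unfold refl3
  refine Continuous.subtype_mk ?_ _
  exact (LinearIsometryEquiv.continuous _).comp continuous_subtype_val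

theorem RankAtLeastThree.le {L : EuclideanSpace ℝ (Fin 4) →L[ℝ] EuclideanSpace ℝ (Fin 4)}
    (h : RankAtLeastThree L) : 3 ≤ Module.finrank ℝ (LinearMap.range L.toLinearMap) := by
  obtain ⟨P, hP⟩ := h
  have h4 : Surjective (P.toLinearMap ∘ₗ (LinearMap.range L.toLinearMap).subtype) := by
    intro w
    obtain ⟨v, hv⟩ := hP w
    exact ⟨⟨_, LinearMap.mem_range_self _ v⟩, hv⟩
  have h5 := LinearMap.finrank_le_finrank_of_surjective h4
  rwa [finrank_euclideanSpace, Fintype.card_fin] at h5

theorem smoothing {M N : Type} [TopologicalSpace M] [T2Space M] [CompactSpace M]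
    [ChartedSpace (EuclideanSpace ℝ (Fin 4)) M] [IsManifold (𝓡 4) ∞ M]
    [TopologicalSpace N] [ChartedSpace (EuclideanSpace ℝ (Fin 4)) N]
    [IsManifold (𝓡 4) ∞ N] (h : HasCorankOneMap M N) :
    ∃ p : C(M, N), IsLocalDiffeomorph (𝓡 4) (𝓡 4) ∞ p := by
  obtain ⟨f, hf, h⟩ := h
  obtain ⟨K, k1, -, -, k4⟩ := Pool.Agent.V1127.Iso.locm (m := 3) f hf
    (fun x => (h x).imp (fun h1 => Filter.Eventually.mono h1 fun _ hy => ⟨hy.1, hy.2.le⟩)
      (fun ⟨k, h1, h2⟩ => ⟨k, h1, h2.mono fun _ hy => ⟨hy.1, hy.2.le⟩⟩))
    univ isOpen_univ (fun x => mem_univ _)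
  exact ⟨⟨fun x => K (1, x), k1.comp (continuous_const.prodMk continuous_id)⟩, fun x => k4 x⟩

/-- Let `N` be `S¹ × S³` and `N'` the twisted product. Let `M` be a closed connected smooth
4-manifold. With a local homeomorphism `M → N` which near each point is smooth of rank at least 3 or
has a local inverse which is smooth of rank at least 3, `M` is diffeomorphic to `N`, and with such a
map to `N'` it is diffeomorphic to `N` or `N'`. -/
theorem result (N N' M : Type)
    [TopologicalSpace N] [T2Space N] [ChartedSpace (EuclideanSpace ℝ (Fin 4)) N]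
    [IsManifold (𝓡 4) ∞ N] (hN : IsMappingTorus id N)
    [TopologicalSpace N'] [T2Space N'] [ChartedSpace (EuclideanSpace ℝ (Fin 4)) N']
    [IsManifold (𝓡 4) ∞ N'] (hN' : IsMappingTorus refl3 N')
    [TopologicalSpace M] [T2Space M] [CompactSpace M] [ConnectedSpace M]
    [ChartedSpace (EuclideanSpace ℝ (Fin 4)) M] [IsManifold (𝓡 4) ∞ M] :
    (HasCorankOneMap M N → Diffeomorphic M N) ∧
      (HasCorankOneMap M N' → Diffeomorphic M N ∨ Diffeomorphic M N') := by
  constructor
  · intro h
    obtain ⟨p, hp⟩ := smoothing h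
    rcases Pool.Agent.V1127.Cm.torus_cover id (fun _ => rfl) continuous_id hN p hp with h1 | h1
    · exact Pool.Agent.V1127.Cm.torus_unique h1 hN
    · exact Pool.Agent.V1127.Cm.torus_unique h1 hN
  · intro h
    obtain ⟨p, hp⟩ := smoothing h
    rcases Pool.Agent.V1127.Cm.torus_cover refl3 refl3_refl3 refl3_cont hN' p hp with h1 | h1
    · exact Or.inl (Pool.Agent.V1127.Cm.torus_unique h1 hN)
    · exact Or.inr (Pool.Agent.V1127.Cm.torus_unique h1 hN')

end Pool.Agent.Results.MP_6db3ee_gt.CorankOneCoverings
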